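import Pool.Agent.U920.NF.Main

/-!
# A natural 6-form with conformally invariant integral which is not `c Q + L + G`

In dimension `6` take `S = Δ(|Ric|² - (3/10) R²) dv`. It is an exact divergence, so its integral is `0` for
every metric on a closed manifold. Restrict to the metrics `e^{2w} |dx|²` on the torus with
`w = s sin x_0 + t (1/2) sin 2 x_0`. If `S - c Q - L` had a local conformal primitive, the one-form with
components `∫ sin x_0 (S - cQ - L)` and `∫ (1/2) sin 2 x_0 (S - cQ - L)` in `(s, t)` would be exact; the terms
of `Q` and `L` form a closed one-form by the self-adjointness of `P`, but the one-form of `S` is not closed.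
-/

set_option autoImplicit false

namespace Pool.Agent.Results.MP_18eb12_gt.NoPrimitiveDimSix

open Pool.Agent.U920.NF

theorem result : ConfInvIntegral 6 sEx ∧
    ∀ (c : ℝ) (Q L : NS), IsQCurvature 6 Q → IsLocalConfInv 6 L →
      ¬ HasPrimitive 6 (.add sEx (.add (.smul (-c) Q) (.smul (-1) L))) :=
  ⟨confInv_sEx 6, no_prim⟩

end Pool.Agent.Results.MP_18eb12_gt.NoPrimitiveDimSix
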